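import Mathlib

/-!
# Factorizations of quaternionic polynomials into factors linear in `v` are not unique
-/

open Polynomial
open scoped Quaternion

namespace Pool.Agent.Results.MP_628392_al.NotUnique

/-- the ring `ℍ[u, v]`: the inner variable is `u`, the outer variable is `v`; both commute with
each other and with all coefficients -/
abbrev HUV : Type := Polynomial (Polynomial (Quaternion ℝ))

/-- similarity in the sense of Ore: isomorphism of left modules `R/RA ≃ R/RB` -/
def Similar (A B : HUV) : Prop :=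
  Nonempty ((HUV ⧸ Submodule.span HUV {A}) ≃ₗ[HUV] (HUV ⧸ Submodule.span HUV {B}))

/-- admissible factorizations `F = A₁ A₂ ⋯ A_m`: every factor is irreducible in `ℍ[u, v]` and
has degree at most one in `v` -/
def IsAdmissible (F : HUV) (l : List HUV) : Prop :=
  l.prod = F ∧ ∀ A ∈ l, Irreducible A ∧ A.natDegree ≤ 1

/-- the assertion of the question: any two admissible factorizations of the same nonzero `F`
have, after a permutation, pairwise similar factors (and the same number of factors) -/
def UniqueUpToSimilarity : Prop :=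
  ∀ (F : HUV) (l m : List HUV), F ≠ 0 → IsAdmissible F l → IsAdmissible F m →
    ∃ m' : List HUV, m.Perm m' ∧ List.Forall₂ Similar l m'

section general

variable {S : Type*} [Ring S]

lemma sub_eval_mem (x : S) (p : S[X]) : p - C (p.eval x) ∈ Submodule.span S[X] {X - C x} := by
  induction p using Polynomial.induction_on with
  | C a => simp
  | add p q hp hq =>
    have : p + q - C ((p + q).eval x) = (p - C (p.eval x)) + (q - C (q.eval x)) := by
      rw [eval_add, C_add]
      abel
    rw [this]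
    exact Submodule.add_mem _ hp hq
  | monomial n a ih =>
    have e1 : (C a * X ^ (n + 1)).eval x = a * x ^ (n + 1) := by
      rw [C_mul_X_pow_eq_monomial, eval_monomial]
    have e2 : (C a * X ^ n).eval x = a * x ^ n := by
      rw [C_mul_X_pow_eq_monomial, eval_monomial]
    have : C a * X ^ (n + 1) - C ((C a * X ^ (n + 1)).eval x) =
        X * (C a * X ^ n - C ((C a * X ^ n).eval x)) + C (a * x ^ n) * (X - C x) := by
      rw [e1, e2, mul_sub, mul_sub, ← C_mul, mul_assoc a, ← pow_succ, X_mul_C]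
      have : X * (C a * X ^ n) = C a * X ^ (n + 1) := by
        rw [← mul_assoc, X_mul_C, mul_assoc, ← pow_succ']
      rw [this]
      abel
    rw [this]
    exact Submodule.add_mem _ (Submodule.smul_mem _ X ih)
      (Submodule.smul_mem _ (C (a * x ^ n)) (Submodule.mem_span_singleton_self _))

lemma eval_eq_zero_of_mem (x : S) (p : S[X]) (h : p ∈ Submodule.span S[X] {X - C x}) :
    p.eval x = 0 := by
  obtain ⟨q, rfl⟩ := Submodule.mem_span_singleton.1 h
  exact eval_mul_X_sub_C x

lemma similar_linear (a b : S) (e : (S[X] ⧸ Submodule.span S[X] {X - C a}) ≃ₗ[S[X]]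
    (S[X] ⧸ Submodule.span S[X] {X - C b})) : ∃ c d : S, c * d = 1 ∧ a * c = c * b := by
  obtain ⟨p, hp⟩ := Submodule.mkQ_surjective _ (e (Submodule.mkQ _ 1))
  obtain ⟨q, hq⟩ := Submodule.mkQ_surjective _ (e.symm (Submodule.mkQ _ 1))
  have hp' : e (Submodule.mkQ _ 1) = Submodule.mkQ _ (C (p.eval b)) := by
    rw [← hp]
    exact (Submodule.Quotient.eq _).2 (sub_eval_mem b p)
  have hq' : e.symm (Submodule.mkQ _ 1) = Submodule.mkQ _ (C (q.eval a)) := by
    rw [← hq]
    exact (Submodule.Quotient.eq _).2 (sub_eval_mem a q)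
  refine ⟨p.eval b, q.eval a, ?_, ?_⟩
  · have h1 : Submodule.mkQ (Submodule.span S[X] {X - C a}) 1 =
        Submodule.mkQ _ (C (p.eval b) * C (q.eval a)) := by
      calc _ = e.symm (e (Submodule.mkQ _ 1)) := (e.symm_apply_apply _).symm
        _ = e.symm (Submodule.mkQ _ (C (p.eval b) • 1)) := by
            rw [hp', smul_eq_mul, mul_one]
        _ = _ := by
            rw [map_smul, map_smul, hq', ← map_smul, smul_eq_mul]
    have h2 := eval_eq_zero_of_mem a _ ((Submodule.Quotient.eq _).1 h1)
    rw [← C_mul, eval_sub, eval_one, eval_C] at h2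
    exact (sub_eq_zero.1 h2).symm
  · have h1 : Submodule.mkQ (Submodule.span S[X] {X - C b}) ((X - C a) * C (p.eval b)) = 0 := by
      rw [← smul_eq_mul, map_smul, ← hp', ← map_smul, ← map_smul, smul_eq_mul, mul_one]
      have : Submodule.mkQ (Submodule.span S[X] {X - C a}) (X - C a) = 0 :=
        (Submodule.Quotient.mk_eq_zero _).2 (Submodule.mem_span_singleton_self _)
      rw [this, map_zero]
    have h2 := eval_eq_zero_of_mem b _ ((Submodule.Quotient.mk_eq_zero _).1 h1)
    rw [sub_mul, X_mul_C, ← C_mul, eval_sub, eval_C, eval_C_mul, eval_X] at h2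
    exact (sub_eq_zero.1 h2).symm

end general

lemma irreducible_linear {S : Type*} [Ring S] [IsDomain S] (a : S) :
    Irreducible (X - C a : S[X]) := by
  have key : ∀ p q : S[X], X - C a = p * q → p.natDegree = 0 ∨ q.natDegree = 0 := by
    intro p q h
    have hne : X - C a ≠ (0 : S[X]) := X_sub_C_ne_zero a
    have hp : p ≠ 0 := by
      rintro rfl
      simp at h
      exact hne h
    have hq : q ≠ 0 := by
      rintro rfl
      simp at h
      exact hne h
    have := congrArg natDegree h
    rw [natDegree_X_sub_C, natDegree_mul hp hq] at this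
    omega
  have unit_of : ∀ x y : S, x * y = 1 → IsUnit x ∧ IsUnit y := by
    intro x y h
    have hy : x ≠ 0 := by
      rintro rfl
      simp at h
    have h2 : y * x = 1 := by
      apply mul_left_cancel₀ hy
      rw [← mul_assoc, h, one_mul, mul_one]
    exact ⟨⟨⟨x, y, h, h2⟩, rfl⟩, ⟨⟨y, x, h2, h⟩, rfl⟩⟩
  constructor
  · intro hu
    obtain ⟨v, hv⟩ := hu
    have h1 := v.mul_inv
    rw [hv] at h1
    have hne : (↑v⁻¹ : S[X]) ≠ 0 := v⁻¹.ne_zero
    have := congrArg natDegree h1
    rw [natDegree_mul (X_sub_C_ne_zero a) hne, natDegree_X_sub_C, natDegree_one] at this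
    omega
  · intro p q h
    have hl := congrArg leadingCoeff h
    rw [leadingCoeff_X_sub_C, leadingCoeff_mul] at hl
    obtain ⟨h1, h2⟩ := unit_of _ _ hl.symm
    rcases key p q h with h0 | h0
    · left
      rw [eq_C_of_natDegree_eq_zero h0]
      rw [leadingCoeff, h0] at h1
      exact h1.map C
    · right
      rw [eq_C_of_natDegree_eq_zero h0]
      rw [leadingCoeff, h0] at h2
      exact h2.map C

/-- the unit quaternions `i`, `j`, `k` -/
noncomputable def hi : Quaternion ℝ := QuaternionAlgebra.mk 0 1 0 0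
noncomputable def hj : Quaternion ℝ := QuaternionAlgebra.mk 0 0 1 0
noncomputable def hk : Quaternion ℝ := QuaternionAlgebra.mk 0 0 0 1

@[simp] lemma hi_re : hi.re = 0 := rfl
@[simp] lemma hi_imI : hi.imI = 1 := rfl
@[simp] lemma hi_imJ : hi.imJ = 0 := rfl
@[simp] lemma hi_imK : hi.imK = 0 := rfl
@[simp] lemma hj_re : hj.re = 0 := rfl
@[simp] lemma hj_imI : hj.imI = 0 := rfl
@[simp] lemma hj_imJ : hj.imJ = 1 := rfl
@[simp] lemma hj_imK : hj.imK = 0 := rfl
@[simp] lemma hk_re : hk.re = 0 := rfl
@[simp] lemma hk_imI : hk.imI = 0 := rfl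
@[simp] lemma hk_imJ : hk.imJ = 0 := rfl
@[simp] lemma hk_imK : hk.imK = 1 := rfl

lemma hi_hi : hi * hi = -1 := by
  ext <;> simp [Quaternion.re_mul, Quaternion.imI_mul, Quaternion.imJ_mul, Quaternion.imK_mul]
lemma hi_hj : hi * hj = hk := by
  ext <;> simp
lemma hj_hi : hj * hi = -hk := by
  ext <;> simp
lemma hj_hk : hj * hk = hi := by
  ext <;> simp
lemma hi_hk : hi * hk = -hj := by
  ext <;> simp
lemma hk_hi : hk * hi = hj := by
  ext <;> simp
lemma hk_hk : hk * hk = -1 := by
  ext <;> simp

/-- the unit quaternions `i`, `j`, `k` as constants of `ℍ[u]` -/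
noncomputable def qi : Polynomial (Quaternion ℝ) := C hi
noncomputable def qj : Polynomial (Quaternion ℝ) := C hj
noncomputable def qk : Polynomial (Quaternion ℝ) := C hk

lemma qi_qi : qi * qi = -1 := by
  rw [qi, ← C_mul, hi_hi, C_neg, C_1]
lemma qi_qj : qi * qj = qk := by
  rw [qi, qj, qk, ← C_mul, hi_hj]
lemma qj_qi : qj * qi = -qk := by
  rw [qi, qj, qk, ← C_mul, ← C_neg, hj_hi]
lemma qj_qk : qj * qk = qi := by
  rw [qi, qj, qk, ← C_mul, hj_hk]
lemma qi_qk : qi * qk = -qj := by
  rw [qi, qj, qk, ← C_mul, ← C_neg, hi_hk]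
lemma qk_qi : qk * qi = qj := by
  rw [qi, qj, qk, ← C_mul, hk_hi]
lemma qk_qk : qk * qk = -1 := by
  rw [qk, ← C_mul, hk_hk, C_neg, C_1]

/-- `a = (u² + 1) i` -/
noncomputable def pa : Polynomial (Quaternion ℝ) := (X ^ 2 + 1) * qi
/-- `a' = -(u² + 1) i - (u + j)` -/
noncomputable def pa' : Polynomial (Quaternion ℝ) := -((X ^ 2 + 1) * qi) - (X + qj)
/-- `β = (u² - 1) i + 2 u k` -/
noncomputable def pβ : Polynomial (Quaternion ℝ) := (X ^ 2 - 1) * qi + (X * qk + X * qk)
/-- `b = - (u + j) - β` -/
noncomputable def pb : Polynomial (Quaternion ℝ) :=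
  -(X + qj) - ((X ^ 2 - 1) * qi + (X * qk + X * qk))

lemma add_eq : pa + pa' = pb + pβ := by
  unfold pa pa' pb pβ
  abel

lemma mul_eq : pa * pa' = pb * pβ := by
  have hXi : qi * X = X * qi := (X_mul).symm
  have hXj : qj * X = X * qj := (X_mul).symm
  have hXk : qk * X = X * qk := (X_mul).symm
  have hXi' : ∀ y, qi * (X * y) = X * (qi * y) := fun y => by rw [← mul_assoc, hXi, mul_assoc]
  have hXj' : ∀ y, qj * (X * y) = X * (qj * y) := fun y => by rw [← mul_assoc, hXj, mul_assoc]
  have hXk' : ∀ y, qk * (X * y) = X * (qk * y) := fun y => by rw [← mul_assoc, hXk, mul_assoc]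
  unfold pa pa' pb pβ
  simp only [pow_two, mul_add, add_mul, mul_sub, sub_mul, mul_neg, neg_mul, one_mul,
    mul_one, mul_assoc, hXi, hXi', hXj', hXk', qi_qi, qi_qj, qj_qi, qj_qk, qi_qk, qk_qi,
    qk_qk]
  abel

lemma factor_eq : ((X - C pa) * (X - C pa') : HUV) = (X - C pb) * (X - C pβ) := by
  have h : ∀ x y : Polynomial (Quaternion ℝ),
      ((X - C x) * (X - C y) : HUV) = X * X - C (x + y) * X + C (x * y) := by
    intro x y
    rw [sub_mul, mul_sub, mul_sub, X_mul_C, C_add, add_mul, C_mul]
    abel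
  rw [h, h, add_eq, mul_eq]

/-- if `X - C a` and `X - C b` are similar and `a` has no linear term in `u`, neither has `b` -/
lemma coeff_one (a b : Polynomial (Quaternion ℝ)) (h : Similar (X - C a) (X - C b))
    (ha : a.coeff 1 = 0) : b.coeff 1 = 0 := by
  obtain ⟨e⟩ := h
  obtain ⟨c, d, h1, h2⟩ := similar_linear a b e
  have hc : c ≠ 0 := by
    rintro rfl
    simp at h1
  have hd : d ≠ 0 := by
    rintro rfl
    simp at h1
  have hdeg := congrArg natDegree h1
  rw [natDegree_mul hc hd, natDegree_one] at hdeg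
  have hc0 : c.natDegree = 0 := by omega
  rw [eq_C_of_natDegree_eq_zero hc0] at h2 hc
  have h3 := congrArg (fun p => p.coeff 1) h2
  simp only [coeff_mul_C, coeff_C_mul, ha, zero_mul] at h3
  rcases mul_eq_zero.1 h3.symm with h4 | h4
  · rw [h4] at hc
    simp at hc
  · exact h4

lemma coeff_pa : pa.coeff 1 = 0 := by
  simp [pa, qi, coeff_mul_C, coeff_X_pow, Polynomial.coeff_one]

lemma coeff_pβ : pβ.coeff 1 ≠ 0 := by
  intro h
  have := congrArg (fun q : Quaternion ℝ => q.imK) h
  simp [pβ, qi, qk, coeff_mul_C, coeff_X_pow, Polynomial.coeff_one] at this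

lemma coeff_pb : pb.coeff 1 ≠ 0 := by
  intro h
  have := congrArg (fun q : Quaternion ℝ => q.re) h
  simp [pb, qi, qj, qk, coeff_mul_C, coeff_X_pow, Polynomial.coeff_one] at this

lemma adm (x y : Polynomial (Quaternion ℝ)) :
    IsAdmissible ((X - C x) * (X - C y)) [X - C x, X - C y] := by
  constructor
  · rw [List.prod_cons, List.prod_cons, List.prod_nil, mul_one]
  · intro A hA
    rw [List.mem_cons, List.mem_singleton] at hA
    rcases hA with hA | hA
    · rw [hA]
      exact ⟨irreducible_linear x, (natDegree_X_sub_C x).le⟩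
    · rw [hA]
      exact ⟨irreducible_linear y, (natDegree_X_sub_C y).le⟩

/-- Admissible factorizations in `ℍ[u, v]` are not unique up to similarity and order. -/
theorem result : ¬ UniqueUpToSimilarity := by
  intro h
  have hne : ((X - C pa) * (X - C pa') : HUV) ≠ 0 :=
    mul_ne_zero (X_sub_C_ne_zero _) (X_sub_C_ne_zero _)
  have h2 : IsAdmissible ((X - C pa) * (X - C pa')) [X - C pb, X - C pβ] := by
    rw [factor_eq]
    exact adm pb pβ
  obtain ⟨m', hm, hF⟩ := h _ _ _ hne (adm pa pa') h2
  obtain ⟨B, m'', hs, -, hm'⟩ := List.forall₂_cons_left_iff.1 hF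
  have hB : B ∈ [(X - C pb : HUV), X - C pβ] := by
    rw [hm.mem_iff, hm']
    exact List.mem_cons_self
  rw [List.mem_cons, List.mem_singleton] at hB
  rcases hB with hB | hB
  · rw [hB] at hs
    exact coeff_pb (coeff_one _ _ hs coeff_pa)
  · rw [hB] at hs
    exact coeff_pβ (coeff_one _ _ hs coeff_pa)

end Pool.Agent.Results.MP_628392_al.NotUnique
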